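import Pool.Agent.Run7.h148.AX.Stm2
import Pool.Agent.Run7.h11.AX.SY
import Pool.Agent.Run7.h997.AX.NLB
import Pool.Agent.Run7.h997.AX.NLM
import Pool.Agent.Run7.h942.AX.CVM

/-! Project AX, piece GB1. -/

set_option autoImplicit false

open MeasureTheory Set Filter Topology
open scoped ENNReal ContDiff FourierTransform

namespace Pool.Agent.Run7.h167.AX

open Pool.Agent.Run7.h148.AX

/-- all weights, locally uniformly in time -/
def TB (a : ℝ → E3 → ℝ≥0∞) : Prop := ∀ (k : ℕ) (T : ℝ), ∃ M : NNReal, ∀ t ∈ Icc 0 T,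
  (∫⁻ ξ, wk k ξ * a t ξ) ≤ M ∧ ∀ ξ, wk k ξ * a t ξ ≤ M

lemma tb_mono {a b : ℝ → E3 → ℝ≥0∞} (h : ∀ t, 0 ≤ t → ∀ ξ, a t ξ ≤ b t ξ) (hb : TB b) : TB a := by
  intro k T
  obtain ⟨M, hM⟩ := hb k T
  refine ⟨M, fun t ht => ⟨(lintegral_mono fun ξ => ?_).trans (hM t ht).1, fun ξ => ?_⟩⟩
  · exact mul_le_mul_right (h t ht.1 ξ) _
  · exact (mul_le_mul_right (h t ht.1 ξ) _).trans ((hM t ht).2 ξ)

lemma tb_add {a b : ℝ → E3 → ℝ≥0∞} (hm : ∀ t, Measurable (a t)) (ha : TB a) (hb : TB b) :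
    TB fun t ξ => a t ξ + b t ξ := by
  intro k T
  obtain ⟨M, hM⟩ := ha k T
  obtain ⟨M', hM'⟩ := hb k T
  refine ⟨M + M', fun t ht => ⟨?_, fun ξ => ?_⟩⟩
  · simp only [mul_add]
    have hmm : Measurable fun ξ => wk k ξ * a t ξ := (h942.AX.meas_wk k).mul (hm t)
    rw [lintegral_add_left hmm, ENNReal.coe_add]
    exact add_le_add (hM t ht).1 (hM' t ht).1
  · rw [mul_add, ENNReal.coe_add]
    exact add_le_add ((hM t ht).2 ξ) ((hM' t ht).2 ξ)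

lemma tb_const {b : E3 → ℝ≥0∞}
    (h : ∀ k : ℕ, ∃ M : NNReal, (∫⁻ ξ, wk k ξ * b ξ) ≤ M ∧ ∀ ξ, wk k ξ * b ξ ≤ M) :
    TB fun _ ξ => b ξ := by
  intro k T
  obtain ⟨M, hM⟩ := h k
  exact ⟨M, fun t _ => hM⟩

lemma tb_smul {b : ℝ → E3 → ℝ≥0∞} (c : NNReal) (h : TB b) : TB fun t ξ => c * b t ξ := by
  intro k T
  obtain ⟨M, hM⟩ := h k T
  refine ⟨c * M, fun t ht => ⟨?_, fun ξ => ?_⟩⟩
  · have h1 : ∀ ξ, wk k ξ * (c * b t ξ) = c * (wk k ξ * b t ξ) := fun ξ => by ring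
    simp_rw [h1]
    rw [lintegral_const_mul' _ _ ENNReal.coe_ne_top, ENNReal.coe_mul]
    exact mul_le_mul_right (hM t ht).1 _
  · rw [show wk k ξ * (c * b t ξ) = c * (wk k ξ * b t ξ) by ring, ENNReal.coe_mul]
    exact mul_le_mul_right ((hM t ht).2 ξ) _

lemma wk_mul (k m : ℕ) (ξ : E3) : wk k ξ * wk m ξ = wk (k + m) ξ := by
  unfold wk
  rw [← ENNReal.ofReal_mul (by positivity), pow_add]

lemma tb_wk {b : ℝ → E3 → ℝ≥0∞} (m : ℕ) (h : TB b) : TB fun t ξ => wk m ξ * b t ξ := by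
  intro k T
  obtain ⟨M, hM⟩ := h (k + m) T
  refine ⟨M, fun t ht => ?_⟩
  have h1 : ∀ ξ, wk k ξ * (wk m ξ * b t ξ) = wk (k + m) ξ * b t ξ := fun ξ => by
    rw [← mul_assoc, wk_mul]
  simp_rw [h1]
  exact hM t ht

lemma enorm_le_sum (v : C3) : ‖v‖ₑ ≤ ‖v 0‖ₑ + ‖v 1‖ₑ + ‖v 2‖ₑ := by
  rw [← ofReal_norm v, ← ofReal_norm (v 0), ← ofReal_norm (v 1), ← ofReal_norm (v 2),
    ← ENNReal.ofReal_add (norm_nonneg _) (norm_nonneg _),
    ← ENNReal.ofReal_add (by positivity) (norm_nonneg _)]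
  refine ENNReal.ofReal_le_ofReal ?_
  refine (pi_norm_le_iff_of_nonneg (by positivity)).2 fun k => ?_
  have h0 := norm_nonneg (v 0)
  have h1 := norm_nonneg (v 1)
  have h2 := norm_nonneg (v 2)
  fin_cases k <;> simp <;> linarith

lemma NN_pos' (n : ℕ) : 0 < NN n := by unfold NN; positivity

/-- Fourier transforms of families of order one -/
lemma fth_tame (hOC4 : S_OC4) {ν : ℝ} (hν : 0 < ν) (F : Fin 3 → Fam) (hF : ∀ k, F k ∈ OO ν 1)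
    (n : ℕ) (v : ℝ → E3 → E3) (hv : ∀ t x k, v t x k = F k n t x) :
    (Measurable fun z : ℝ × E3 => fth (v z.1) z.2) ∧ TB fun t ξ => ‖fth (v t) ξ‖ₑ := by
  have hc : ∀ t ξ k, fth (v t) ξ k = 𝓕 (fun x => ((F k n t x : ℝ) : ℂ)) ξ := by
    intro t ξ k
    unfold fth
    simp only [hv]
  have hmk : ∀ k, Measurable fun z : ℝ × E3 => fth (v z.1) z.2 k := by
    intro k
    simp_rw [hc]
    exact (hOC4 ν 1 (F k) hν (hF k)).1 n
  have hbk : ∀ k, TB fun t ξ => ‖fth (v t) ξ k‖ₑ := by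
    intro k m T
    obtain ⟨C, hC, h⟩ := (hOC4 ν 1 (F k) hν (hF k)).2 m
    have hN : 0 ≤ NN n ^ ((1 : ℤ) + m) := (zpow_pos (NN_pos' n) _).le
    refine ⟨(C * NN n ^ ((1 : ℤ) + m)).toNNReal, fun t ht => ?_⟩
    have hexp : Real.exp (-(ta ν n t / 2)) ≤ 1 := by
      refine Real.exp_le_one_iff.2 ?_
      have : 0 ≤ ta ν n t := by
        unfold ta
        have := ht.1
        positivity
      linarith
    have hle : C * NN n ^ ((1 : ℤ) + m) * Real.exp (-(ta ν n t / 2)) ≤ C * NN n ^ ((1 : ℤ) + m) :=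
      mul_le_of_le_one_right (mul_nonneg hC hN) hexp
    obtain ⟨h1, h2⟩ := h n t ht.1
    refine ⟨?_, fun ξ => ?_⟩
    · simp_rw [hc]
      exact h2.trans (ENNReal.ofReal_le_ofReal hle)
    · show wk m ξ * ‖fth (v t) ξ k‖ₑ ≤ _
      rw [hc, wk, ← ofReal_norm, ← ENNReal.ofReal_mul (by positivity)]
      exact ENNReal.ofReal_le_ofReal ((h1 ξ).trans hle)
  refine ⟨measurable_pi_iff.2 hmk, ?_⟩
  have hmk' : ∀ t k, Measurable fun ξ => ‖fth (v t) ξ k‖ₑ := fun t k =>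
    ((hmk k).comp (measurable_const.prodMk measurable_id : Measurable fun ξ : E3 => (t, ξ))).enorm
  exact tb_mono (fun t _ ξ => enorm_le_sum _)
    (tb_add (fun t => (hmk' t 0).add (hmk' t 1)) (tb_add (fun t => hmk' t 0) (hbk 0) (hbk 1)) (hbk 2))

/-! symmetries -/

lemma sym_add {a b : E3 → C3} (ha : Sym a) (hb : Sym b) : Sym fun ξ => a ξ + b ξ := by
  refine ⟨fun ξ k => ?_, fun θ ξ => ?_, fun ξ => ?_⟩
  · simp only [Pi.add_apply, map_add, ha.1 ξ k, hb.1 ξ k]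
  · simp only [ha.2.1 θ ξ, hb.2.1 θ ξ, _root_.Run7.h11.AX.rc_add]
  · show dt ξ (a ξ + b ξ) = 0
    rw [_root_.Run7.h11.AX.dt_add, ha.2.2 ξ, hb.2.2 ξ, add_zero]

lemma sym_rad {a : E3 → C3} (c : E3 → ℝ) (hc : ∀ ξ, c (-ξ) = c ξ) (hr : ∀ θ ξ, c (rt θ ξ) = c ξ)
    (ha : Sym a) : Sym fun ξ => c ξ • a ξ := by
  refine ⟨fun ξ k => ?_, fun θ ξ => ?_, fun ξ => ?_⟩
  · simp only [Pi.smul_apply, hc, ha.1 ξ k, Complex.real_smul, map_mul, Complex.conj_ofReal]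
  · simp only [hr, ha.2.1 θ ξ, ← Complex.coe_smul, _root_.Run7.h11.AX.rc_smul]
  · show dt ξ (c ξ • a ξ) = 0
    rw [← Complex.coe_smul, _root_.Run7.h11.AX.dt_smul, ha.2.2 ξ, mul_zero]

lemma sym_smul {a : E3 → C3} (c : ℝ) (ha : Sym a) : Sym fun ξ => c • a ξ :=
  sym_rad (fun _ => c) (fun _ => rfl) (fun _ _ => rfl) ha

lemma sym_deriv {g : ℝ → E3 → C3} {d : E3 → C3} {t : ℝ} (hg : ∀ s, Sym (g s))
    (hd : ∀ ξ, HasDerivAt (fun s => g s ξ) (d ξ) t) : Sym d := by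
  refine ⟨fun ξ k => ?_, fun θ ξ => ?_, fun ξ => ?_⟩
  · have h1 := hasDerivAt_pi.1 (hd (-ξ)) k
    have h2 : HasDerivAt (fun s => Complex.conjCLE (g s ξ k)) (Complex.conjCLE (d ξ k)) t :=
      (Complex.conjCLE : ℂ →L[ℝ] ℂ).hasFDerivAt.comp_hasDerivAt t (hasDerivAt_pi.1 (hd ξ) k)
    have h3 : (fun s => g s (-ξ) k) = fun s => Complex.conjCLE (g s ξ k) :=
      funext fun s => (hg s).1 ξ k
    rw [h3] at h1
    exact h1.unique h2
  · have h1 := hd (rt θ ξ)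
    have h2 : HasDerivAt (fun s => _root_.Run7.h11.AX.rcE θ (g s ξ)) (_root_.Run7.h11.AX.rcE θ (d ξ)) t :=
      ((_root_.Run7.h11.AX.rcE θ : C3 →L[ℂ] C3).restrictScalars ℝ).hasFDerivAt.comp_hasDerivAt t (hd ξ)
    have h3 : (fun s => g s (rt θ ξ)) = fun s => _root_.Run7.h11.AX.rcE θ (g s ξ) :=
      funext fun s => (hg s).2.1 θ ξ
    rw [h3] at h1
    exact h1.unique h2
  · have h2 : HasDerivAt (fun s => _root_.Run7.h11.AX.dtL ξ (g s ξ)) (_root_.Run7.h11.AX.dtL ξ (d ξ)) t :=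
      (_root_.Run7.h11.AX.dtL ξ).hasFDerivAt.comp_hasDerivAt t (hd ξ)
    have h3 : (fun s => _root_.Run7.h11.AX.dtL ξ (g s ξ)) = fun _ => (0 : ℂ) :=
      funext fun s => (hg s).2.2 ξ
    rw [h3] at h2
    exact h2.unique (hasDerivAt_const t 0)

lemma ta_nonneg {ν : ℝ} (hν : 0 < ν) (n : ℕ) {t : ℝ} (ht : 0 ≤ t) : 0 ≤ ta ν n t := by
  unfold ta
  positivity

lemma enorm_real_smul_le {c : ℝ} (hc : |c| ≤ 1) (v : C3) : ‖c • v‖ₑ ≤ ‖v‖ₑ := by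
  rw [← ofReal_norm, ← ofReal_norm]
  refine ENNReal.ofReal_le_ofReal ?_
  rw [norm_smul, Real.norm_eq_abs]
  exact mul_le_of_le_one_left (norm_nonneg _) hc

lemma tameV_of {a : ℝ → E3 → C3} (h : Measurable fun z : ℝ × E3 => a z.1 z.2)
    (hb : TB fun t ξ => ‖a t ξ‖ₑ) : TameV a := ⟨h, h.enorm, hb⟩

theorem t_GB1 : S_OC2 → S_OC4 → S_RES → S_VVP → S_FTF → S_WDV → S_WAX → S_NLB → S_NLM → S_CVM →
    S_WK1 → S_SY1 → S_GQ1 → S_GB1 := by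
  intro _ hOC4 hRES hVVP hFTF hWDV hWAX hNLB hNLM hCVM hWK1 hSY1 hGQ1 ν A hν hA n
  obtain ⟨hVm, hVb, hVs, hVc, hVa, -, -⟩ := hVVP ν A hν hA
  -- the wave and its residual
  obtain ⟨hwm, hwb⟩ := fth_tame hOC4 hν (ww ν A (VV ν A)) (fun k => (hRES ν A _ hν hA hVc k).2) n
    (fun t => wf ν A (VV ν A) n t) (fun t x k => rfl)
  obtain ⟨hrm, hrb⟩ := fth_tame hOC4 hν (Rw ν A (VV ν A)) (fun k => (hRES ν A _ hν hA hVc k).1) n
    (fun t => Rwf ν A (VV ν A) n t) (fun t x k => rfl)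
  have htam : Measurable fun z : ℝ × E3 => ta ν n z.1 := by
    unfold ta
    fun_prop
  have hVtb : TB fun _ ξ => ‖Vh ν A ξ‖ₑ := tb_const hVb
  have hVm2 : Measurable fun z : ℝ × E3 => Vh ν A z.2 := hVm.comp measurable_snd
  have hem : Measurable fun z : ℝ × E3 => Real.exp (-(2 * ta ν n z.1)) :=
    Real.measurable_exp.comp ((htam.const_mul 2).neg)
  have hsym : ∀ t, Sym (gg ν A n t) := by
    intro t
    obtain ⟨w1, w2, w3⟩ := hWDV ν A _ hν hA hVc n t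
    obtain ⟨-, -, f3, f4, f5, -, -⟩ := hFTF.1 _ w2 w3
    exact sym_add (sym_smul _ hVs) ⟨f3, f4 (hWAX ν A _ hν hA hVc hVa n t), f5 w1⟩
  have hexp : ∀ t, 0 ≤ t → |Real.exp (-(2 * ta ν n t))| ≤ 1 := by
    intro t ht
    rw [abs_of_pos (Real.exp_pos _), Real.exp_le_one_iff]
    have := ta_nonneg hν n ht
    linarith
  refine ⟨tameV_of ?_ ?_, tameV_of ?_ ?_, hsym, ?_⟩
  · exact (hem.smul hVm2).add hwm
  · refine tb_mono (b := fun t ξ => ‖Vh ν A ξ‖ₑ + ‖fth (wf ν A (VV ν A) n t) ξ‖ₑ) ?_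
      (tb_add (fun t => hVm.enorm) hVtb hwb)
    intro t ht ξ
    exact (enorm_add_le _ _).trans (add_le_add (enorm_real_smul_le (hexp t ht) _) le_rfl)
  · have h1 : Measurable fun z : ℝ × E3 => lp z.2 (fth (Rwf ν A (VV ν A) n z.1) z.2) :=
      h997.AX.meas_lp measurable_snd hrm
    have h2 : Measurable fun z : ℝ × E3 => nl (Vh ν A) (Vh ν A) z.2 :=
      hNLM (fun _ => Vh ν A) (fun _ => Vh ν A) hVm2 hVm2
    have h3 : Measurable fun z : ℝ × E3 =>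
        4 * Real.pi ^ 2 * ν * ‖z.2‖ ^ 2 * Real.exp (-(2 * ta ν n z.1)) :=
      ((measurable_snd.norm.pow_const 2).const_mul _).mul hem
    exact (h1.add (h3.smul hVm2)).sub ((hem.pow_const 2).smul h2)
  · -- bounds
    have hcvm : Measurable (cv (fun ξ => ‖Vh ν A ξ‖ₑ) fun ξ => ‖Vh ν A ξ‖ₑ) :=
      (hCVM.1 _ _ hVm.enorm hVm.enorm).1
    have hcv : TB fun _ ξ => cv (fun ξ => ‖Vh ν A ξ‖ₑ) (fun ξ => ‖Vh ν A ξ‖ₑ) ξ := by
      refine tb_const fun k => ?_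
      obtain ⟨M, hM1, hM2⟩ := hVb k
      obtain ⟨M0, hM01, hM02⟩ := hVb 0
      have h0 : (∫⁻ ξ, ‖Vh ν A ξ‖ₑ) ≤ M0 := by
        refine le_trans (lintegral_mono fun ξ => ?_) hM01
        rw [wk, pow_zero, ENNReal.ofReal_one, one_mul]
      obtain ⟨k1, k2, -⟩ := hWK1 _ _ hVm.enorm hVm.enorm
      refine ⟨2 ^ k * (M * M0 + M0 * M), ?_, fun ξ => ?_⟩
      · refine (k1 k).trans ?_
        push_cast
        gcongr
      · refine (k2 k M M hM2 hM2 ξ).trans ?_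
        push_cast
        gcongr
    refine tb_mono (b := fun t ξ => (3 : NNReal) * ‖fth (Rwf ν A (VV ν A) n t) ξ‖ₑ +
      ((4 * Real.pi ^ 2 * ν).toNNReal * (wk 2 ξ * ‖Vh ν A ξ‖ₑ) +
        (40 : NNReal) * (wk 1 ξ * cv (fun ξ => ‖Vh ν A ξ‖ₑ) (fun ξ => ‖Vh ν A ξ‖ₑ) ξ))) ?_ ?_
    · intro t ht ξ
      have e1 : ‖lp ξ (fth (Rwf ν A (VV ν A) n t) ξ)‖ₑ ≤
          (3 : NNReal) * ‖fth (Rwf ν A (VV ν A) n t) ξ‖ₑ := by
        rw [← ofReal_norm, ← ofReal_norm, show ((3 : NNReal) : ℝ≥0∞) = ENNReal.ofReal 3 by simp,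
          ← ENNReal.ofReal_mul (by norm_num)]
        refine ENNReal.ofReal_le_ofReal ((h997.AX.norm_lp_le _ _).trans ?_)
        exact mul_le_mul_of_nonneg_right (by norm_num) (norm_nonneg _)
      have e2 : ‖(4 * Real.pi ^ 2 * ν * ‖ξ‖ ^ 2 * Real.exp (-(2 * ta ν n t))) • Vh ν A ξ‖ₑ ≤
          (4 * Real.pi ^ 2 * ν).toNNReal * (wk 2 ξ * ‖Vh ν A ξ‖ₑ) := by
        rw [← mul_assoc, wk, ← ofReal_norm, ← ofReal_norm, ENNReal.ofNNReal_toNNReal,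
          ← ENNReal.ofReal_mul (by positivity), ← ENNReal.ofReal_mul (by positivity)]
        refine ENNReal.ofReal_le_ofReal ?_
        rw [norm_smul, Real.norm_eq_abs, abs_of_nonneg (by positivity)]
        refine mul_le_mul_of_nonneg_right ?_ (norm_nonneg _)
        have h1 : Real.exp (-(2 * ta ν n t)) ≤ 1 := (le_abs_self _).trans (hexp t ht)
        have h2 : ‖ξ‖ ^ 2 ≤ (1 + ‖ξ‖) ^ 2 :=
          pow_le_pow_left₀ (norm_nonneg _) (by linarith [norm_nonneg ξ]) 2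
        calc 4 * Real.pi ^ 2 * ν * ‖ξ‖ ^ 2 * Real.exp (-(2 * ta ν n t))
            ≤ 4 * Real.pi ^ 2 * ν * ‖ξ‖ ^ 2 * 1 := mul_le_mul_of_nonneg_left h1 (by positivity)
          _ ≤ 4 * Real.pi ^ 2 * ν * (1 + ‖ξ‖) ^ 2 := by
              rw [mul_one]
              exact mul_le_mul_of_nonneg_left h2 (by positivity)
      have e3 : ‖(Real.exp (-(2 * ta ν n t)) ^ 2) • nl (Vh ν A) (Vh ν A) ξ‖ₑ ≤
          (40 : NNReal) * (wk 1 ξ * cv (fun ξ => ‖Vh ν A ξ‖ₑ) (fun ξ => ‖Vh ν A ξ‖ₑ) ξ) := by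
        have h1 : |Real.exp (-(2 * ta ν n t)) ^ 2| ≤ 1 := by
          rw [abs_pow]
          exact pow_le_one₀ (abs_nonneg _) (hexp t ht)
        refine (enorm_real_smul_le h1 _).trans ((hNLB _ _ ξ).trans ?_)
        rw [mul_assoc]
        refine mul_le_mul_right (mul_le_mul_left ?_ _) _
        rw [nw, wk, pow_one]
        exact ENNReal.ofReal_le_ofReal (by linarith)
      have e4 : ‖Rr ν A n t ξ‖ₑ ≤ ‖lp ξ (fth (Rwf ν A (VV ν A) n t) ξ)‖ₑ +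
          (‖(4 * Real.pi ^ 2 * ν * ‖ξ‖ ^ 2 * Real.exp (-(2 * ta ν n t))) • Vh ν A ξ‖ₑ +
            ‖(Real.exp (-(2 * ta ν n t)) ^ 2) • nl (Vh ν A) (Vh ν A) ξ‖ₑ) := by
        unfold Rr
        refine (enorm_sub_le).trans ?_
        rw [← add_assoc]
        exact add_le_add (enorm_add_le _ _) le_rfl
      exact e4.trans (add_le_add e1 (add_le_add e2 e3))
    · have hm0 : ∀ t, Measurable fun ξ => ‖fth (Rwf ν A (VV ν A) n t) ξ‖ₑ := fun t =>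
        (hrm.comp (measurable_const.prodMk measurable_id : Measurable fun ξ : E3 => (t, ξ))).enorm
      refine tb_add (fun t => (hm0 t).const_mul _) (tb_smul _ hrb) (tb_add (fun t => ?_)
        (tb_smul _ (tb_wk 2 hVtb)) (tb_smul _ (tb_wk 1 hcv)))
      exact ((h942.AX.meas_wk 2).mul hVm.enorm).const_mul _
  · -- symmetry of the residual
    intro t
    obtain ⟨s1, s2, s3⟩ := hSY1
    have hnl : Sym (nl (gg ν A n t) (gg ν A n t)) :=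
      ⟨s1 _ _ (hsym t).1 (hsym t).1, s2 _ _ (hsym t).2.1 (hsym t).2.1, s3 _ _⟩
    have hD := sym_deriv hsym fun ξ => hGQ1 ν A hν hA n t ξ
    have h1 : Sym fun ξ => (4 * Real.pi ^ 2 * ν * ‖ξ‖ ^ 2) • gg ν A n t ξ :=
      sym_rad (fun ξ => 4 * Real.pi ^ 2 * ν * ‖ξ‖ ^ 2) (fun ξ => by simp only [norm_neg])
        (fun θ ξ => by simp only [_root_.Run7.h11.AX.rt_norm]) (hsym t)
    have h2 := sym_add (sym_add hD h1) (sym_smul (-1) hnl)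
    have h3 : Rr ν A n t = fun ξ => -(4 * Real.pi ^ 2 * ν * ‖ξ‖ ^ 2) • gg ν A n t ξ +
        nl (gg ν A n t) (gg ν A n t) ξ + Rr ν A n t ξ +
        (4 * Real.pi ^ 2 * ν * ‖ξ‖ ^ 2) • gg ν A n t ξ +
        (-1 : ℝ) • nl (gg ν A n t) (gg ν A n t) ξ := by
      funext ξ
      rw [neg_smul, neg_smul, one_smul]
      abel
    rw [h3]
    exact h2

end Pool.Agent.Run7.h167.AX
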