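import Pool.Agent.Run7.h148.AX.Stm2

/-! Project AX, piece OC2. -/

set_option autoImplicit false

open MeasureTheory Set Filter Topology
open scoped ENNReal ContDiff FourierTransform

namespace Pool.Agent.Run7.h167.AX

open Pool.Agent.Run7.h148.AX

lemma cc_pd {ρ : E3 → ℝ} (h : Cc ρ) (i : Fin 3) : Cc (pd i ρ) := by
  refine ⟨?_, ?_⟩
  · have h1 : ContDiff ℝ ∞ (fderiv ℝ ρ) := h.1.fderiv_right (m := ∞) (by norm_num)
    exact h1.clm_apply contDiff_const
  · exact h.2.fderiv_apply (𝕜 := ℝ) _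

lemma cc_add {ρ σ : E3 → ℝ} (h : Cc ρ) (h' : Cc σ) : Cc (ρ + σ) := ⟨h.1.add h'.1, h.2.add h'.2⟩

lemma cc_smul {ρ : E3 → ℝ} (h : Cc ρ) (a : ℝ) : Cc (a • ρ) :=
  ⟨contDiff_const.smul h.1, h.2.smul_left (f := fun _ => a)⟩

lemma single_two (i : Fin 3) : (EuclideanSpace.single i (1 : ℝ) : E3) 2 = if i = 2 then 1 else 0 := by
  rw [PiLp.single_apply]
  simp only [eq_comm]

lemma proj_single (i : Fin 3) : (EuclideanSpace.proj 2 : E3 →L[ℝ] ℝ)
    (EuclideanSpace.single i (1 : ℝ)) = if i = 2 then 1 else 0 := single_two i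

lemma hasFDeriv_two (x : E3) :
    HasFDerivAt (fun y : E3 => y 2) (EuclideanSpace.proj 2 : E3 →L[ℝ] ℝ) x :=
  (EuclideanSpace.proj (2 : Fin 3) : E3 →L[ℝ] ℝ).hasFDerivAt

lemma pd_cos (i : Fin 3) {ρ : E3 → ℝ} (hρ : Cc ρ) (a c : ℝ) (x : E3) :
    pd i (fun y => a * ρ y * Real.cos (c * y 2)) x = a * pd i ρ x * Real.cos (c * x 2) -
      (if i = 2 then a * c * ρ x * Real.sin (c * x 2) else 0) := by
  have h1 : HasFDerivAt ρ (fderiv ℝ ρ x) x := (hρ.1.differentiable (by simp) x).hasFDerivAt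
  have h2 : HasFDerivAt (fun y : E3 => Real.cos (c * y 2)) _ x := ((hasFDeriv_two x).const_mul c).cos
  have h3 := (h1.const_mul a).mul h2
  unfold pd
  rw [show (fun y => a * ρ y * Real.cos (c * y 2)) = (fun y => a * ρ y) * fun y => Real.cos (c * y 2)
    from rfl, h3.fderiv]
  simp only [add_apply, smul_apply, smul_eq_mul, proj_single]
  split_ifs <;> ring

lemma pd_sin (i : Fin 3) {ρ : E3 → ℝ} (hρ : Cc ρ) (a c : ℝ) (x : E3) :
    pd i (fun y => a * ρ y * Real.sin (c * y 2)) x = a * pd i ρ x * Real.sin (c * x 2) +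
      (if i = 2 then a * c * ρ x * Real.cos (c * x 2) else 0) := by
  have h1 : HasFDerivAt ρ (fderiv ℝ ρ x) x := (hρ.1.differentiable (by simp) x).hasFDerivAt
  have h2 : HasFDerivAt (fun y : E3 => Real.sin (c * y 2)) _ x := ((hasFDeriv_two x).const_mul c).sin
  have h3 := (h1.const_mul a).mul h2
  unfold pd
  rw [show (fun y => a * ρ y * Real.sin (c * y 2)) = (fun y => a * ρ y) * fun y => Real.sin (c * y 2)
    from rfl, h3.fderiv]
  simp only [add_apply, smul_apply, smul_eq_mul, proj_single]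
  split_ifs <;> ring

lemma NN_pos (n : ℕ) : 0 < NN n := by unfold NN; positivity

/-- the amplitude in time -/
noncomputable def amp (ν : ℝ) (l j n : ℕ) (t : ℝ) : ℝ := ta ν n t ^ l * Real.exp (-(j * ta ν n t))

lemma amp_deriv (ν : ℝ) (l j n : ℕ) (t : ℝ) :
    HasDerivAt (amp ν l j n) (ν * NN n ^ 2 * (l * amp ν (l - 1) j n t - j * amp ν l j n t)) t := by
  have h0 : HasDerivAt (fun s => ta ν n s) (ν * NN n ^ 2) t := by
    unfold ta
    simpa using (hasDerivAt_id t).const_mul (ν * NN n ^ 2)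
  have h1 := (h0.pow l).mul ((h0.const_mul (j : ℝ)).neg.exp)
  refine h1.congr_deriv ?_
  simp only [amp, Pi.pow_apply, Pi.neg_apply]
  ring

lemma gen_mem {ν : ℝ} {p : ℤ} {q : ℤ} {l j : ℕ} {k : ℤ} {ρ : E3 → ℝ} (hq : q ≤ p) (hj : 1 ≤ j)
    (hρ : Cc ρ) : Tc ν q l j k ρ ∈ OO ν p ∧ Ts ν q l j k ρ ∈ OO ν p :=
  ⟨Submodule.subset_span ⟨q, l, j, k, ρ, hq, hj, hρ, Or.inl rfl⟩,
    Submodule.subset_span ⟨q, l, j, k, ρ, hq, hj, hρ, Or.inr rfl⟩⟩

/-- the property -/
def PP (ν : ℝ) (p : ℤ) (f : Fam) : Prop :=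
  (∀ n, ContDiff ℝ ∞ fun z : ℝ × E3 => f n z.1 z.2) ∧ (∀ n t, Cc (f n t)) ∧
  dx 0 f ∈ OO ν p ∧ dx 1 f ∈ OO ν p ∧ dx 2 f ∈ OO ν (p + 1) ∧ dtm f ∈ OO ν (p + 2)

lemma PP_add {ν : ℝ} {p : ℤ} {f g : Fam} (hf : PP ν p f) (hg : PP ν p g) : PP ν p (f + g) := by
  obtain ⟨a1, a2, a3, a4, a5, a6⟩ := hf
  obtain ⟨b1, b2, b3, b4, b5, b6⟩ := hg
  have hd : ∀ i, dx i (f + g) = dx i f + dx i g := by
    intro i
    funext n t x
    simp only [dx, pd, Pi.add_apply]
    have h1 := ((a2 n t).1.differentiable (by simp) x)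
    have h2 := ((b2 n t).1.differentiable (by simp) x)
    rw [fderiv_add h1 h2]
    rfl
  have ht : dtm (f + g) = dtm f + dtm g := by
    funext n t x
    simp only [dtm, Pi.add_apply]
    have h1 : DifferentiableAt ℝ (fun s => f n s x) t :=
      (((a1 n).comp (contDiff_id.prodMk contDiff_const)).differentiable (by simp) t)
    have h2 : DifferentiableAt ℝ (fun s => g n s x) t :=
      (((b1 n).comp (contDiff_id.prodMk contDiff_const)).differentiable (by simp) t)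
    exact deriv_fun_add h1 h2
  refine ⟨fun n => (a1 n).add (b1 n), fun n t => cc_add (a2 n t) (b2 n t), ?_, ?_, ?_, ?_⟩
  · rw [hd]; exact add_mem a3 b3
  · rw [hd]; exact add_mem a4 b4
  · rw [hd]; exact add_mem a5 b5
  · rw [ht]; exact add_mem a6 b6

lemma PP_smul {ν : ℝ} {p : ℤ} (a : ℝ) {f : Fam} (hf : PP ν p f) : PP ν p (a • f) := by
  obtain ⟨a1, a2, a3, a4, a5, a6⟩ := hf
  have hd : ∀ i, dx i (a • f) = a • dx i f := by
    intro i
    funext n t x
    simp only [dx, pd, Pi.smul_apply]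
    have h1 := ((a2 n t).1.differentiable (by simp) x)
    rw [fderiv_const_smul h1]
    rfl
  have ht : dtm (a • f) = a • dtm f := by
    funext n t x
    simp only [dtm, Pi.smul_apply, smul_eq_mul]
    exact deriv_const_mul_field a
  refine ⟨fun n => contDiff_const.mul (a1 n), fun n t => cc_smul (a2 n t) a, ?_, ?_, ?_, ?_⟩
  · rw [hd]; exact Submodule.smul_mem _ _ a3
  · rw [hd]; exact Submodule.smul_mem _ _ a4
  · rw [hd]; exact Submodule.smul_mem _ _ a5
  · rw [ht]; exact Submodule.smul_mem _ _ a6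

lemma PP_zero (ν : ℝ) (p : ℤ) : PP ν p 0 := by
  have hd : ∀ i, dx i (0 : Fam) = 0 := by
    intro i
    funext n t x
    simp only [dx, pd, Pi.zero_apply]
    rw [fderiv_zero]
    simp
  have ht : dtm (0 : Fam) = 0 := by
    funext n t x
    simp [dtm]
  refine ⟨fun n => contDiff_const, fun n t => ⟨contDiff_const, HasCompactSupport.zero⟩, ?_, ?_, ?_, ?_⟩
  · rw [hd]; exact zero_mem _
  · rw [hd]; exact zero_mem _
  · rw [hd]; exact zero_mem _
  · rw [ht]; exact zero_mem _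

lemma Tc_eq (ν : ℝ) (q : ℤ) (l j : ℕ) (k : ℤ) (ρ : E3 → ℝ) (n : ℕ) (t : ℝ) (x : E3) :
    Tc ν q l j k ρ n t x = NN n ^ q * amp ν l j n t * ρ x * Real.cos (k * NN n * x 2) := by
  simp only [Tc, amp]; ring

lemma Ts_eq (ν : ℝ) (q : ℤ) (l j : ℕ) (k : ℤ) (ρ : E3 → ℝ) (n : ℕ) (t : ℝ) (x : E3) :
    Ts ν q l j k ρ n t x = NN n ^ q * amp ν l j n t * ρ x * Real.sin (k * NN n * x 2) := by
  simp only [Ts, amp]; ring

lemma amp_cont (ν : ℝ) (l j n : ℕ) : ContDiff ℝ ∞ (amp ν l j n) := by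
  unfold amp ta
  fun_prop

lemma two_cont : ContDiff ℝ ∞ (fun y : E3 => y 2) :=
  (EuclideanSpace.proj (2 : Fin 3) : E3 →L[ℝ] ℝ).contDiff

lemma PP_gen {ν : ℝ} {p : ℤ} {q : ℤ} {l j : ℕ} {k : ℤ} {ρ : E3 → ℝ} (hq : q ≤ p) (hj : 1 ≤ j)
    (hρ : Cc ρ) : PP ν p (Tc ν q l j k ρ) ∧ PP ν p (Ts ν q l j k ρ) := by
  have hdc : ∀ i : Fin 3, dx i (Tc ν q l j k ρ) = Tc ν q l j k (pd i ρ) -
      (if i = 2 then (k : ℝ) • Ts ν (q + 1) l j k ρ else 0) := by
    intro i
    funext n t x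
    have h1 : Tc ν q l j k ρ n t = fun y => (NN n ^ q * amp ν l j n t) * ρ y *
        Real.cos ((k * NN n) * y 2) := funext fun y => Tc_eq ν q l j k ρ n t y
    simp only [dx]
    rw [h1, pd_cos i hρ]
    simp only [Pi.sub_apply]
    rw [Tc_eq]
    split_ifs
    · simp only [Pi.smul_apply, smul_eq_mul]
      rw [Ts_eq, zpow_add_one₀ (NN_pos n).ne']
      ring
    · simp only [Pi.zero_apply]
  have hds : ∀ i : Fin 3, dx i (Ts ν q l j k ρ) = Ts ν q l j k (pd i ρ) +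
      (if i = 2 then (k : ℝ) • Tc ν (q + 1) l j k ρ else 0) := by
    intro i
    funext n t x
    have h1 : Ts ν q l j k ρ n t = fun y => (NN n ^ q * amp ν l j n t) * ρ y *
        Real.sin ((k * NN n) * y 2) := funext fun y => Ts_eq ν q l j k ρ n t y
    simp only [dx]
    rw [h1, pd_sin i hρ]
    simp only [Pi.add_apply]
    rw [Ts_eq]
    split_ifs
    · simp only [Pi.smul_apply, smul_eq_mul]
      rw [Tc_eq, zpow_add_one₀ (NN_pos n).ne']
      ring
    · simp only [Pi.zero_apply]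
  have htc : dtm (Tc ν q l j k ρ) = (ν * l) • Tc ν (q + 2) (l - 1) j k ρ -
      (ν * j) • Tc ν (q + 2) l j k ρ := by
    funext n t x
    have h1 : (fun s => Tc ν q l j k ρ n s x) = fun s => (NN n ^ q * ρ x * Real.cos (k * NN n * x 2)) *
        amp ν l j n s := funext fun s => by rw [Tc_eq]; ring
    simp only [dtm, Pi.sub_apply, Pi.smul_apply, smul_eq_mul]
    rw [h1, ((amp_deriv ν l j n t).const_mul _).deriv, Tc_eq, Tc_eq, zpow_add₀ (NN_pos n).ne']
    norm_cast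
    ring
  have hts : dtm (Ts ν q l j k ρ) = (ν * l) • Ts ν (q + 2) (l - 1) j k ρ -
      (ν * j) • Ts ν (q + 2) l j k ρ := by
    funext n t x
    have h1 : (fun s => Ts ν q l j k ρ n s x) = fun s => (NN n ^ q * ρ x * Real.sin (k * NN n * x 2)) *
        amp ν l j n s := funext fun s => by rw [Ts_eq]; ring
    simp only [dtm, Pi.sub_apply, Pi.smul_apply, smul_eq_mul]
    rw [h1, ((amp_deriv ν l j n t).const_mul _).deriv, Ts_eq, Ts_eq, zpow_add₀ (NN_pos n).ne']
    norm_cast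
    ring
  have hcc : ∀ n t, Cc (Tc ν q l j k ρ n t) := by
    intro n t
    have h1 : Tc ν q l j k ρ n t = fun y => (NN n ^ q * amp ν l j n t) * ρ y *
        Real.cos ((k * NN n) * y 2) := funext fun y => Tc_eq ν q l j k ρ n t y
    rw [h1]
    refine ⟨(contDiff_const.mul hρ.1).mul (Real.contDiff_cos.comp (contDiff_const.mul two_cont)), ?_⟩
    refine hρ.2.mono fun y hy => ?_
    rw [Function.mem_support] at hy ⊢
    intro h0
    exact hy (by simp only [h0]; ring)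
  have hcs : ∀ n t, Cc (Ts ν q l j k ρ n t) := by
    intro n t
    have h1 : Ts ν q l j k ρ n t = fun y => (NN n ^ q * amp ν l j n t) * ρ y *
        Real.sin ((k * NN n) * y 2) := funext fun y => Ts_eq ν q l j k ρ n t y
    rw [h1]
    refine ⟨(contDiff_const.mul hρ.1).mul (Real.contDiff_sin.comp (contDiff_const.mul two_cont)), ?_⟩
    refine hρ.2.mono fun y hy => ?_
    rw [Function.mem_support] at hy ⊢
    intro h0
    exact hy (by simp only [h0]; ring)
  have h2 : ((2 : ℕ) : ℤ) = 2 := rfl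
  refine ⟨⟨fun n => ?_, hcc, ?_, ?_, ?_, ?_⟩, ⟨fun n => ?_, hcs, ?_, ?_, ?_, ?_⟩⟩
  · simp only [Tc_eq]
    exact ((contDiff_const.mul ((amp_cont ν l j n).comp contDiff_fst)).mul (hρ.1.comp contDiff_snd)).mul
      (Real.contDiff_cos.comp (contDiff_const.mul (two_cont.comp contDiff_snd)))
  · rw [hdc, if_neg (by decide), sub_zero]
    exact (gen_mem hq hj (cc_pd hρ 0)).1
  · rw [hdc, if_neg (by decide), sub_zero]
    exact (gen_mem hq hj (cc_pd hρ 1)).1
  · rw [hdc, if_pos rfl]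
    exact sub_mem (gen_mem (by omega) hj (cc_pd hρ 2)).1
      (Submodule.smul_mem _ _ (gen_mem (by omega) hj hρ).2)
  · rw [htc]
    exact sub_mem (Submodule.smul_mem _ _ (gen_mem (by omega) hj hρ).1)
      (Submodule.smul_mem _ _ (gen_mem (by omega) hj hρ).1)
  · simp only [Ts_eq]
    exact ((contDiff_const.mul ((amp_cont ν l j n).comp contDiff_fst)).mul (hρ.1.comp contDiff_snd)).mul
      (Real.contDiff_sin.comp (contDiff_const.mul (two_cont.comp contDiff_snd)))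
  · rw [hds, if_neg (by decide), add_zero]
    exact (gen_mem hq hj (cc_pd hρ 0)).2
  · rw [hds, if_neg (by decide), add_zero]
    exact (gen_mem hq hj (cc_pd hρ 1)).2
  · rw [hds, if_pos rfl]
    exact add_mem (gen_mem (by omega) hj (cc_pd hρ 2)).2
      (Submodule.smul_mem _ _ (gen_mem (by omega) hj hρ).1)
  · rw [hts]
    exact sub_mem (Submodule.smul_mem _ _ (gen_mem (by omega) hj hρ).2)
      (Submodule.smul_mem _ _ (gen_mem (by omega) hj hρ).2)

theorem t_OC2 : S_OC2 := by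
  intro ν p f hf
  change PP ν p f
  induction hf using Submodule.span_induction with
  | mem f hf =>
    obtain ⟨q, l, j, k, ρ, hq, hj, hρ, h | h⟩ := hf
    · rw [h]; exact (PP_gen hq hj hρ).1
    · rw [h]; exact (PP_gen hq hj hρ).2
  | zero => exact PP_zero ν p
  | add f g _ _ hf hg => exact PP_add hf hg
  | smul a f _ hf => exact PP_smul a hf

end Pool.Agent.Run7.h167.AX
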